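import Pool.Agent.H148L.LA

set_option autoImplicit false

/-! One class: integral points which satisfy equations modulo many primes. -/

namespace Pool.Agent.H148L

open Finset MvPolynomial

/-- the monomials of degree at most `D` in the variables of `J` -/
noncomputable def mons {n : ℕ} (J : Finset (Fin n)) (D : ℕ) : Finset (J →₀ ℕ) :=
  (Finset.Icc 0 (Finsupp.equivFunOnFinite.symm fun _ => D)).filter (fun m => ∑ k, m k ≤ D)

theorem mem_mons {n : ℕ} (J : Finset (Fin n)) (D : ℕ) (m : J →₀ ℕ) :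
    m ∈ mons J D ↔ ∑ k, m k ≤ D := by
  unfold mons
  rw [Finset.mem_filter]
  refine ⟨fun h => h.2, fun h => ⟨?_, h⟩⟩
  rw [Finset.mem_Icc]
  refine ⟨fun k => Nat.zero_le _, fun k => ?_⟩
  exact (Finset.single_le_sum (f := fun k => m k) (fun _ _ => Nat.zero_le _)
    (Finset.mem_univ k)).trans h

theorem support_sub {n : ℕ} (J : Finset (Fin n)) (D : ℕ) {K : Type} [CommRing K]
    (R : MvPolynomial J K) (hR : R.totalDegree ≤ D) : R.support ⊆ mons J D := by
  intro m hm
  rw [mem_mons]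
  have h1 := (le_totalDegree hm).trans hR
  rwa [Finsupp.sum_fintype _ _ (fun _ => rfl)] at h1

theorem deg_of_support {n : ℕ} (J : Finset (Fin n)) (D : ℕ) {K : Type} [CommRing K]
    (R : MvPolynomial J K) (hR : R.support ⊆ mons J D) : R.totalDegree ≤ D := by
  unfold MvPolynomial.totalDegree
  refine Finset.sup_le fun m hm => ?_
  rw [Finsupp.sum_fintype _ _ (fun _ => rfl)]
  exact (mem_mons J D m).1 (hR hm)

theorem eval_eq_mons {n : ℕ} (J : Finset (Fin n)) (D : ℕ) {K : Type} [CommRing K]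
    (R : MvPolynomial J K) (hR : R.totalDegree ≤ D) (x : J → K) :
    eval x R = ∑ m : mons J D, R.coeff m.1 * ∏ k, x k ^ (m.1 k) := by
  rw [eval_eq', Finset.sum_coe_sort (mons J D) (fun m => R.coeff m * ∏ k, x k ^ (m k))]
  refine Finset.sum_subset (support_sub J D R hR) fun m _ hm => ?_
  rw [notMem_support_iff.1 hm, zero_mul]

/-- the monomials at a rational point with denominator `w`, times `w ^ D` -/
theorem eval_hom {n : ℕ} (J : Finset (Fin n)) (D : ℕ) {K : Type} [Field K]
    (R : MvPolynomial J K) (hR : R.totalDegree ≤ D) (u : J → K) (w : K) (hw : w ≠ 0) :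
    ∑ m : mons J D, R.coeff m.1 * (w ^ (D - ∑ k, m.1 k) * ∏ k, u k ^ (m.1 k)) =
      w ^ D * eval (fun k => u k / w) R := by
  rw [eval_eq_mons J D R hR, Finset.mul_sum]
  refine Finset.sum_congr rfl fun m _ => ?_
  have h1 : ∑ k, m.1 k ≤ D := (mem_mons J D m.1).1 m.2
  have h2 : w ^ D = w ^ (D - ∑ k, m.1 k) * ∏ k, w ^ (m.1 k) := by
    rw [Finset.prod_pow_eq_pow_sum, ← pow_add]
    congr 1
    omega
  have h3 : ∏ k, (u k / w) ^ (m.1 k) = (∏ k, u k ^ (m.1 k)) / ∏ k, w ^ (m.1 k) := by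
    rw [← Finset.prod_div_distrib]
    exact Finset.prod_congr rfl fun k _ => div_pow _ _ _
  have h4 : ∏ k, w ^ (m.1 k) ≠ 0 := Finset.prod_ne_zero_iff.2 fun k _ => pow_ne_zero _ hw
  rw [h2, h3]
  field_simp

/-- one class: `T` is a set of rational points `x.1 / x.2` with numerators and denominator at
most `H` -/
theorem one_class {n : ℕ} (J : Finset (Fin n)) (D H : ℕ) (hH : 1 ≤ H) (S : Finset ℕ)
    (T : Set ((Fin n → ℤ) × ℕ)) (hT : ∀ x ∈ T, (∀ k, |x.1 k| ≤ (H : ℤ)) ∧ 1 ≤ x.2 ∧ x.2 ≤ H)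
    (hS : ∀ p ∈ S, p.Prime ∧ ∃ R : MvPolynomial J (ZMod p), R ≠ 0 ∧ R.totalDegree ≤ D ∧
      ∀ x ∈ T, ¬ p ∣ x.2 → ∀ (_ : Fact p.Prime),
        eval (fun k : J => (x.1 k : ZMod p) / (x.2 : ZMod p)) R = 0)
    (hbig : (mons J D).card.factorial * (H ^ D) ^ (mons J D).card * H ^ (mons J D).card <
      ∏ p ∈ S, p) :
    ∃ g : MvPolynomial J ℤ, g ≠ 0 ∧ g.totalDegree ≤ D ∧
      ∀ x ∈ T, aeval (fun k : J => (x.1 k : ℚ) / (x.2 : ℚ)) g = 0 := by
  classical
  by_contra hno
  push Not at hno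
  set v : (Fin n → ℤ) × ℕ → (mons J D → ℤ) := fun x m =>
    (x.2 : ℤ) ^ (D - ∑ k, m.1 k) * ∏ k : J, x.1 k ^ (m.1 k) with hv
  obtain ⟨V, hVT, hdet⟩ := la (mons J D) (v '' T) (by
    intro c hc
    by_contra hc0
    obtain ⟨m₀, hm₀⟩ := Function.ne_iff.1 hc0
    set g : MvPolynomial J ℤ := ∑ m : mons J D, monomial m.1 (c m) with hg
    have hcoeff : ∀ m : mons J D, g.coeff m.1 = c m := by
      intro m
      rw [hg, coeff_sum, Finset.sum_eq_single m]
      · rw [coeff_monomial, if_pos rfl]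
      · intro m' _ hm'
        rw [coeff_monomial, if_neg]
        intro h
        exact hm' (Subtype.ext h)
      · intro h
        exact absurd (Finset.mem_univ m) h
    have hsupp : g.support ⊆ mons J D := by
      intro m hm
      by_contra hmm
      rw [mem_support_iff] at hm
      apply hm
      rw [hg, coeff_sum]
      refine Finset.sum_eq_zero fun m' _ => ?_
      rw [coeff_monomial, if_neg]
      rintro rfl
      exact hmm m'.2
    have hdeg := deg_of_support J D g hsupp
    have hg0 : g ≠ 0 := by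
      intro h
      apply hm₀
      rw [← hcoeff m₀, h, coeff_zero]
      rfl
    obtain ⟨x, hx, hne⟩ := hno g hg0 hdeg
    apply hne
    have hw : ((x.2 : ℕ) : ℚ) ≠ 0 := by
      have := (hT x hx).2.1
      exact_mod_cast (by omega : x.2 ≠ 0)
    have hmapd : (map (Int.castRingHom ℚ) g).totalDegree ≤ D := by
      refine le_trans (Finset.sup_mono ?_) hdeg
      exact MvPolynomial.support_map_subset _ _
    have h1 := eval_hom J D (map (Int.castRingHom ℚ) g) hmapd (fun k : J => (x.1 k : ℚ))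
      (x.2 : ℚ) hw
    have h2 : ∑ m : mons J D, (map (Int.castRingHom ℚ) g).coeff m.1 *
        ((x.2 : ℚ) ^ (D - ∑ k, m.1 k) * ∏ k : J, (x.1 k : ℚ) ^ (m.1 k)) = 0 := by
      have h3 := hc (v x) ⟨x, hx, rfl⟩
      have h4 := congrArg (fun z : ℤ => (z : ℚ)) h3
      simp only [hv] at h4
      push_cast at h4
      rw [← h4]
      refine Finset.sum_congr rfl fun m _ => ?_
      rw [coeff_map, hcoeff]
      rfl
    rw [h2] at h1
    rcases mul_eq_zero.1 h1.symm with h3 | h3
    · exact absurd h3 (pow_ne_zero _ hw)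
    · rw [eval_map] at h3
      exact h3)
  choose x hxT hx using hVT
  have hxv : ∀ i j, V i j = v (x i) j := fun i j => congrFun (hx i).symm j
  set W : ℕ := ∏ i, (x i).2 with hW
  have hWpos : 0 < W := Finset.prod_pos fun i _ => (hT _ (hxT i)).2.1
  have hWle : W ≤ H ^ (mons J D).card := by
    rw [hW]
    refine (Finset.prod_le_pow_card _ _ H fun i _ => (hT _ (hxT i)).2.2).trans ?_
    rw [Finset.card_univ, Fintype.card_coe]
  set Δ : ℤ := (Matrix.of V).det with hΔ
  have hΔb : |Δ| ≤ ((mons J D).card.factorial * (H ^ D) ^ (mons J D).card : ℕ) := by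
    have h0 := det_bound (mons J D) V (H ^ D) (by
      intro i m
      rw [hxv, hv]
      simp only
      obtain ⟨h1, h2, h3⟩ := hT _ (hxT i)
      rw [abs_mul, Finset.abs_prod, abs_pow, Nat.abs_cast]
      have h4 : ∏ k : J, |(x i).1 k ^ (m.1 k)| ≤ ∏ k : J, (H : ℤ) ^ (m.1 k) := by
        refine Finset.prod_le_prod (fun _ _ => abs_nonneg _) fun k _ => ?_
        rw [abs_pow]
        exact pow_le_pow_left₀ (abs_nonneg _) (h1 k) _
      have h5 : ((x i).2 : ℤ) ^ (D - ∑ k, m.1 k) ≤ (H : ℤ) ^ (D - ∑ k, m.1 k) :=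
        pow_le_pow_left₀ (by positivity) (by exact_mod_cast h3) _
      refine (mul_le_mul h5 h4 (Finset.prod_nonneg fun _ _ => abs_nonneg _)
        (by positivity)).trans ?_
      rw [Finset.prod_pow_eq_pow_sum, ← pow_add]
      push_cast
      refine le_of_eq ?_
      congr 1
      have := (mem_mons J D m.1).1 m.2
      omega)
    rw [Fintype.card_coe] at h0
    push_cast at h0 ⊢
    exact h0
  -- the primes of `S`
  have hdvd : (∏ p ∈ S, p) ∣ Δ.natAbs * W := by
    refine Finset.prod_primes_dvd _ (fun p hp => (hS p hp).1.prime) fun p hp => ?_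
    obtain ⟨hpp, R, hR0, hRd, hR⟩ := hS p hp
    by_cases hpW : p ∣ W
    · exact Dvd.dvd.mul_left hpW _
    · refine Dvd.dvd.mul_right ?_ _
      have hfact : Fact p.Prime := ⟨hpp⟩
      have hpx : ∀ i, ¬ p ∣ (x i).2 := fun i h =>
        hpW (h.trans (Finset.dvd_prod_of_mem _ (Finset.mem_univ i)))
      have h1 := det_dvd (mons J D) V p hpp (fun m => R.coeff m.1) (by
        intro h
        apply hR0
        ext m
        rw [coeff_zero]
        by_cases hm : m ∈ mons J D
        · exact congrFun h ⟨m, hm⟩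
        · by_contra hne
          exact hm (support_sub J D R hRd (mem_support_iff.2 hne))) (by
        intro i
        have hw : (((x i).2 : ℕ) : ZMod p) ≠ 0 := by
          rw [Ne, ZMod.natCast_eq_zero_iff]
          exact hpx i
        have h2 := eval_hom J D R hRd (fun k : J => ((x i).1 k : ZMod p)) ((x i).2 : ZMod p) hw
        rw [hR (x i) (hxT i) (hpx i) hfact, mul_zero] at h2
        rw [← h2]
        refine Finset.sum_congr rfl fun m _ => ?_
        rw [hxv, hv]
        push_cast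
        rfl)
      exact Int.natCast_dvd.1 h1
  have h1 := Nat.le_of_dvd (Nat.mul_pos (Int.natAbs_pos.2 hdet) hWpos) hdvd
  have h2 : (Δ.natAbs : ℤ) ≤ ((mons J D).card.factorial * (H ^ D) ^ (mons J D).card : ℕ) := by
    rw [Int.natCast_natAbs]
    exact hΔb
  have h3 : Δ.natAbs ≤ (mons J D).card.factorial * (H ^ D) ^ (mons J D).card := by
    exact_mod_cast h2
  have h4 := Nat.mul_le_mul h3 hWle
  omega

end Pool.Agent.H148L
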