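import Pool.Agent.H925R3.DC.Stubs
import Pool.Agent.H148L.One

set_option autoImplicit false

/-! The abstract theorem: few families of equations. -/

namespace Pool.Agent.H148L

open Finset Filter Topology Pool.Agent.H925R3.DC

theorem tendsto_log_nat : Tendsto (fun H : ℕ => Real.log H) atTop atTop :=
  Real.tendsto_log_atTop.comp tendsto_natCast_atTop_atTop

/-- choice of the parameters -/
theorem par (t A B : ℝ) (ε : ℝ) (hε : 0 < ε) : ∃ η : ℝ, 0 < η ∧ ∃ δ : ℝ, 0 < δ ∧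
    ∀ X₀ : ℝ, ∀ᶠ H : ℕ in atTop, X₀ ≤ Real.log H ^ (1 + δ) ∧
      A + B * Real.log H < (Real.log H ^ (1 + δ)) ^ (1 - η) * Real.log 2 ∧
      t * (Real.log H ^ (1 + δ)) ^ (1 / 2 + η) ≤ Real.log H ^ (1 / 2 + ε) := by
  set ε' : ℝ := min ε 1 with hε'
  have hε'0 : 0 < ε' := lt_min hε one_pos
  have hε'1 : ε' ≤ 1 := min_le_right _ _
  have hε'2 : ε' ≤ ε := min_le_left _ _
  set η : ℝ := ε' / 4 with hη
  have hη0 : 0 < η := by positivity
  have hη1 : η ≤ 1 / 4 := by rw [hη]; linarith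
  refine ⟨η, hη0, 2 * η, by positivity, fun X₀ => ?_⟩
  have hL : Tendsto (fun H : ℕ => Real.log H) atTop atTop := tendsto_log_nat
  have h2 : 0 < Real.log 2 := Real.log_pos (by norm_num)
  -- first exponent
  set a : ℝ := (1 + 2 * η) * (1 - η) with ha
  have ha1 : 0 < a - 1 := by rw [ha]; nlinarith
  set b : ℝ := (1 + 2 * η) * (1 / 2 + η) with hb
  have hb1 : 0 < 1 / 2 + ε - b := by
    rw [hb]
    have : ε = 4 * η + (ε - ε') := by rw [hη]; ring
    nlinarith
  have e1 := (((tendsto_rpow_atTop (show 0 < 1 + 2 * η by linarith)).comp hL).eventually_ge_atTop X₀)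
  have e2 := (((tendsto_rpow_atTop ha1).comp hL).eventually_ge_atTop
    ((|A| + |B| + 1) / Real.log 2))
  have e3 := (((tendsto_rpow_atTop hb1).comp hL).eventually_ge_atTop |t|)
  have e4 := hL.eventually_ge_atTop 1
  filter_upwards [e1, e2, e3, e4] with H h1 h3 h4 h5
  simp only [Function.comp_apply] at h1 h3 h4
  have hL0 : 0 < Real.log H := by linarith
  refine ⟨h1, ?_, ?_⟩
  · rw [← Real.rpow_mul hL0.le]
    have h6 : Real.log H ^ ((1 + 2 * η) * (1 - η)) = Real.log H ^ (a - 1) * Real.log H := by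
      rw [← ha]
      nth_rw 3 [← Real.rpow_one (Real.log H)]
      rw [← Real.rpow_add hL0]
      congr 1
      ring
    rw [h6]
    have h7 : |A| + |B| + 1 ≤ Real.log H ^ (a - 1) * Real.log 2 := by
      rwa [div_le_iff₀ h2] at h3
    have h8 : A ≤ |A| := le_abs_self A
    have h9 : B ≤ |B| := le_abs_self B
    have h10 : (|A| + |B| + 1) * Real.log H ≤ Real.log H ^ (a - 1) * Real.log 2 * Real.log H :=
      mul_le_mul_of_nonneg_right h7 hL0.le
    have h11 : |A| * 1 ≤ |A| * Real.log H := mul_le_mul_of_nonneg_left h5 (abs_nonneg A)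
    have h12 : B * Real.log H ≤ |B| * Real.log H := mul_le_mul_of_nonneg_right h9 hL0.le
    nlinarith
  · rw [← Real.rpow_mul hL0.le, ← hb]
    have h6 : Real.log H ^ (1 / 2 + ε) = Real.log H ^ (1 / 2 + ε - b) * Real.log H ^ b := by
      rw [← Real.rpow_add hL0]
      congr 1
      ring
    rw [h6]
    refine mul_le_mul_of_nonneg_right ((le_abs_self t).trans h4) (Real.rpow_nonneg hL0.le _)

/-- The rational points of height at most `H` whose reductions lie, modulo all good primes, in a set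
determined by an element of a finitely generated group, satisfy one of few families of
equations. -/
theorem abs_thm (hCLS : CLS) (hPRM : PRM) (G : Type) [AddCommGroup G] [AddGroup.FG G] (n : ℕ)
    (M D : ℕ) (hM : 0 < M) (hD : 0 < D) (Ω : (p : ℕ) → G → Set (Fin n → ZMod p)) (e Dg : ℕ)
    (hp : ∀ p : ℕ, p.Prime → 2 < p → ¬ p ∣ D → M ∣ p + 1 →
      (∀ P P' R : G, P = P' + (p + 1) • R → Ω p P = Ω p P') ∧
      (∀ P, ∀ J : Finset (Fin n), J.card = e → ∃ R : MvPolynomial J (ZMod p), R ≠ 0 ∧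
        R.totalDegree ≤ Dg ∧ ∀ t ∈ Ω p P, MvPolynomial.eval (fun k : J => t k) R = 0))
    (ε : ℝ) (hε : 0 < ε) :
    ∃ C : ℝ, ∀ H : ℕ, 1 ≤ H → ∃ 𝒢 : Finset ((J : Finset (Fin n)) → MvPolynomial J ℤ),
      (𝒢.card : ℝ) ≤ C * Real.exp (Real.log H ^ (1 / 2 + ε)) ∧
      (∀ g ∈ 𝒢, ∀ J : Finset (Fin n), J.card = e → g J ≠ 0 ∧ (g J).totalDegree ≤ Dg) ∧
      ∀ (u : Fin n → ℤ) (w : ℕ), (∀ k, |u k| ≤ (H : ℤ)) → 1 ≤ w → w ≤ H →
        (∃ P : G, ∀ (p : ℕ) [Fact p.Prime], 2 < p → ¬ p ∣ D → M ∣ p + 1 → ¬ p ∣ w →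
          (fun k => (u k : ZMod p) / (w : ZMod p)) ∈ Ω p P) →
        ∃ g ∈ 𝒢, ∀ J : Finset (Fin n), J.card = e →
          MvPolynomial.aeval (fun k : J => (u k : ℚ) / (w : ℚ)) (g J) = 0 := by
  classical
  obtain ⟨τ, hτ⟩ := hCLS G
  set A : ℝ := ∑ J : Finset (Fin n), Real.log ((mons J Dg).card.factorial) with hA
  set B : ℝ := ∑ J : Finset (Fin n), (((Dg + 1) * (mons J Dg).card : ℕ) : ℝ) with hB
  obtain ⟨η, hη, δ, hδ, hpar⟩ := par τ A B ε hε
  obtain ⟨X₀, hprm⟩ := hPRM M D hM hD 1 (Or.inl rfl) η hη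
  obtain ⟨H₁, hH₁⟩ := ((hpar X₀).and (eventually_ge_atTop 1)).exists_forall_of_atTop
  have key : ∀ H : ℕ, H₁ ≤ H → ∃ 𝒢 : Finset ((J : Finset (Fin n)) → MvPolynomial J ℤ),
      (𝒢.card : ℝ) ≤ Real.exp (Real.log H ^ (1 / 2 + ε)) ∧
      (∀ g ∈ 𝒢, ∀ J : Finset (Fin n), J.card = e → g J ≠ 0 ∧ (g J).totalDegree ≤ Dg) ∧
      ∀ (u : Fin n → ℤ) (w : ℕ), (∀ k, |u k| ≤ (H : ℤ)) → 1 ≤ w → w ≤ H →
        (∃ P : G, ∀ (p : ℕ) [Fact p.Prime], 2 < p → ¬ p ∣ D → M ∣ p + 1 → ¬ p ∣ w →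
          (fun k => (u k : ZMod p) / (w : ZMod p)) ∈ Ω p P) →
        ∃ g ∈ 𝒢, ∀ J : Finset (Fin n), J.card = e →
          MvPolynomial.aeval (fun k : J => (u k : ℚ) / (w : ℚ)) (g J) = 0 := by
    intro H hH
    obtain ⟨⟨hX, hbig, hcls⟩, hH1⟩ := hH₁ H hH
    have hHR : (1 : ℝ) ≤ H := by exact_mod_cast hH1
    have hlog : 0 ≤ Real.log H := Real.log_nonneg hHR
    set X : ℝ := Real.log H ^ (1 + δ) with hXdef
    obtain ⟨S, N, hN, hS1, hS2, hN2⟩ := hprm X hX
    have hS1' : ∀ p ∈ S, p.Prime ∧ 2 < p ∧ ¬ p ∣ D ∧ M ∣ p + 1 ∧ p + 1 ∣ N := by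
      intro p hpS
      obtain ⟨a1, a2, a3, a4, a5, a6⟩ := hS1 p hpS
      exact ⟨a1, a2, a4, by exact_mod_cast a5, by exact_mod_cast a6⟩
    obtain ⟨T, hT1, hT2⟩ := hτ N hN
    -- the equations of one class
    have hone : ∀ g : G, ∀ J : Finset (Fin n), J.card = e → ∃ q : MvPolynomial J ℤ, q ≠ 0 ∧
        q.totalDegree ≤ Dg ∧ ∀ (u : Fin n → ℤ) (w : ℕ), (∀ k, |u k| ≤ (H : ℤ)) → 1 ≤ w → w ≤ H →
          (∀ p ∈ S, ¬ p ∣ w → ∀ (_ : Fact p.Prime),
            (fun k => (u k : ZMod p) / (w : ZMod p)) ∈ Ω p g) →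
          MvPolynomial.aeval (fun k : J => (u k : ℚ) / (w : ℚ)) q = 0 := by
      intro g J hJ
      obtain ⟨q, hq0, hqd, hq⟩ := one_class J Dg H hH1 S
        {x | ((∀ k, |x.1 k| ≤ (H : ℤ)) ∧ 1 ≤ x.2 ∧ x.2 ≤ H) ∧
          ∀ p ∈ S, ¬ p ∣ x.2 → ∀ (_ : Fact p.Prime),
            (fun k => (x.1 k : ZMod p) / (x.2 : ZMod p)) ∈ Ω p g}
        (fun x hx => hx.1) (by
          intro p hpS
          obtain ⟨a1, a2, a3, a4, -⟩ := hS1' p hpS
          obtain ⟨R, hR0, hRd, hR⟩ := (hp p a1 a2 a3 a4).2 g J hJ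
          exact ⟨a1, R, hR0, hRd, fun x hx hpx hf => hR _ (hx.2 p hpS hpx hf)⟩) (by
          have h1 : (2 : ℕ) ^ S.card ≤ ∏ p ∈ S, p := by
            rw [← Finset.prod_const]
            exact Finset.prod_le_prod (fun _ _ => Nat.zero_le _) fun p hpS => (hS1' p hpS).1.two_le
          refine lt_of_lt_of_le ?_ h1
          have hA' : Real.log ((mons J Dg).card.factorial) ≤ A := by
            refine Finset.single_le_sum (f := fun J : Finset (Fin n) =>
              Real.log ((mons J Dg).card.factorial)) (fun J _ => ?_) (Finset.mem_univ J)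
            exact Real.log_natCast_nonneg _
          have hB' : (((Dg + 1) * (mons J Dg).card : ℕ) : ℝ) ≤ B := by
            refine Finset.single_le_sum (f := fun J : Finset (Fin n) =>
              (((Dg + 1) * (mons J Dg).card : ℕ) : ℝ)) (fun J _ => ?_) (Finset.mem_univ J)
            exact Nat.cast_nonneg _
          have hpos : (0 : ℝ) < (mons J Dg).card.factorial := by
            exact_mod_cast Nat.factorial_pos _
          have hHpos : (0 : ℝ) < H := by linarith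
          have h3 : Real.log (((mons J Dg).card.factorial * (H ^ Dg) ^ (mons J Dg).card *
              H ^ (mons J Dg).card : ℕ)) < Real.log ((2 : ℕ) ^ S.card : ℕ) := by
            push_cast
            rw [Real.log_mul (by positivity) (by positivity), Real.log_mul hpos.ne' (by positivity),
              Real.log_pow, Real.log_pow, Real.log_pow, Real.log_pow]
            have h4 : ((mons J Dg).card : ℝ) * (Dg * Real.log H) +
                ((mons J Dg).card : ℝ) * Real.log H =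
                (((Dg + 1) * (mons J Dg).card : ℕ) : ℝ) * Real.log H := by
              push_cast
              ring
            rw [add_assoc, h4]
            have h5 : (((Dg + 1) * (mons J Dg).card : ℕ) : ℝ) * Real.log H ≤ B * Real.log H :=
              mul_le_mul_of_nonneg_right hB' hlog
            have h6 : X ^ (1 - η) * Real.log 2 ≤ S.card * Real.log 2 :=
              mul_le_mul_of_nonneg_right hS2 (Real.log_nonneg (by norm_num))
            linarith
          have h4 := (Real.log_lt_log_iff (by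
            push_cast
            positivity) (by positivity)).1 h3
          exact_mod_cast h4)
      exact ⟨q, hq0, hqd, fun u w h1 h2 h3 h4 => hq (u, w) ⟨⟨h1, h2, h3⟩, h4⟩⟩
    choose q hq0 hqd hq using hone
    set fam : G → ((J : Finset (Fin n)) → MvPolynomial J ℤ) := fun g J =>
      if h : J.card = e then q g J h else 0 with hfam
    refine ⟨T.image fam, ?_, ?_, ?_⟩
    · have h1 : ((T.image fam).card : ℝ) ≤ (N : ℝ) ^ τ := by
        exact_mod_cast Finset.card_image_le.trans hT1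
      refine h1.trans ?_
      have hNR : (0 : ℝ) < N := by exact_mod_cast hN
      rw [← Real.exp_log (pow_pos hNR τ), Real.log_pow]
      refine Real.exp_le_exp.2 (le_trans ?_ hcls)
      exact mul_le_mul_of_nonneg_left hN2 (Nat.cast_nonneg _)
    · intro g hg J hJ
      obtain ⟨g', -, rfl⟩ := Finset.mem_image.1 hg
      rw [hfam]
      simp only [hJ, dif_pos]
      exact ⟨hq0 _ _ _, hqd _ _ _⟩
    · rintro u w hu hw1 hw2 ⟨P, hP⟩
      obtain ⟨g, hg, R, hR⟩ := hT2 P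
      refine ⟨fam g, Finset.mem_image_of_mem _ hg, fun J hJ => ?_⟩
      rw [hfam]
      simp only [hJ, dif_pos]
      refine hq g J hJ u w hu hw1 hw2 fun p hpS hpw hf => ?_
      obtain ⟨a1, a2, a3, a4, a5⟩ := hS1' p hpS
      obtain ⟨y, hy⟩ := a5
      have hPR : P = g + (p + 1) • (y • R) := by
        rw [hR, hy, mul_comm, mul_nsmul]
      rw [← (hp p a1 a2 a3 a4).1 P g (y • R) hPR]
      exact hP p a2 a3 a4 hpw
  refine ⟨Real.exp (Real.log H₁ ^ (1 / 2 + ε)), fun H hH => ?_⟩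
  by_cases hc : H₁ ≤ H
  · obtain ⟨𝒢, h1, h2, h3⟩ := key H hc
    refine ⟨𝒢, h1.trans ?_, h2, h3⟩
    have h4 : 1 ≤ Real.exp (Real.log H₁ ^ (1 / 2 + ε)) := by
      refine Real.one_le_exp (Real.rpow_nonneg (Real.log_natCast_nonneg _) _)
    exact le_mul_of_one_le_left (Real.exp_pos _).le h4
  · push Not at hc
    obtain ⟨𝒢, h1, h2, h3⟩ := key H₁ le_rfl
    refine ⟨𝒢, h1.trans ?_, h2, fun u w hu hw1 hw2 h => h3 u w (fun k => (hu k).trans ?_) hw1
      (hw2.trans hc.le) h⟩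
    · have h4 : 1 ≤ Real.exp (Real.log H ^ (1 / 2 + ε)) := by
        refine Real.one_le_exp (Real.rpow_nonneg (Real.log_natCast_nonneg _) _)
      exact le_mul_of_one_le_right (Real.exp_pos _).le h4
    · exact_mod_cast hc.le

end Pool.Agent.H148L
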