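import Pool.Agent.H148L.Geo
import Pool.Agent.W659.FD.Ex

set_option autoImplicit false

/-! An explicit class: complete intersections of diagonal equations, in every dimension and
codimension. -/

namespace Pool.Agent.H148L

open MvPolynomial
open Pool.Agent.W659 Pool.Agent.W659.FD

/-- the polynomial `f_0 + f_1 t_1 ^ m + … + f_n t_n ^ m` -/
noncomputable def diag {r n : ℕ} (m : ℕ) (f : Fin (n + 1) → MvPolynomial (Fin r × Fin 3) ℤ) :
    Poly r n :=
  rename Sum.inl (f 0) + ∑ k : Fin n, rename Sum.inl (f k.succ) * X (Sum.inr k) ^ m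

/-- a form of multidegree `d` in the homogeneous coordinates of the `r` plane cubics -/
def IsForm {r : ℕ} (f : MvPolynomial (Fin r × Fin 3) ℤ) (d : Fin r → ℕ) : Prop :=
  ∀ e ∈ f.support, ∀ i, ∑ j, e (i, j) = d i

theorem rename_homog {r n : ℕ} (f : MvPolynomial (Fin r × Fin 3) ℤ)
    (d : Fin r → ℕ) (hf : IsForm f d) :
    IsWeightedHomogeneous (wt r n) (rename Sum.inl f : Poly r n) d := by
  rw [← multiHomog_iff]
  intro e he i
  classical
  rw [support_rename_of_injective Sum.inl_injective, Finset.mem_image] at he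
  obtain ⟨e', he', rfl⟩ := he
  rw [← hf e' he' i]
  refine Finset.sum_congr rfl fun j _ => ?_
  exact Finsupp.mapDomain_apply Sum.inl_injective _ _

theorem diag_homog {r n : ℕ} (m : ℕ) (f : Fin (n + 1) → MvPolynomial (Fin r × Fin 3) ℤ)
    (d : Fin r → ℕ) (hf : ∀ k, IsForm (f k) d) : MultiHomog (diag m f) d := by
  rw [multiHomog_iff]
  unfold diag
  refine (rename_homog (f 0) d (hf 0)).add ?_
  apply IsWeightedHomogeneous.sum
  intro k _
  have h1 := rename_homog (n := n) (f k.succ) d (hf k.succ)
  have h2 : IsWeightedHomogeneous (wt r n) (X (Sum.inr k) : Poly r n) 0 :=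
    isWeightedHomogeneous_X ℤ (wt r n) (Sum.inr k)
  have h4 := h1.mul (h2.pow m)
  simpa using h4

theorem val_diag {K : Type} [Field K] {r n : ℕ} (m : ℕ)
    (f : Fin (n + 1) → MvPolynomial (Fin r × Fin 3) ℤ) (V : Fin r → Fin 3 → K) (t : Fin n → K) :
    val (diag m f) V t = aeval (fun ij => V ij.1 ij.2) (f 0) +
      ∑ k : Fin n, aeval (fun ij => V ij.1 ij.2) (f k.succ) * t k ^ m := by
  unfold val diag
  rw [map_add, map_sum, aeval_rename]
  congr 1
  refine Finset.sum_congr rfl fun k _ => ?_
  rw [map_mul, map_pow, aeval_X, aeval_rename]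
  rfl

/-- `s` independent diagonal equations define a subset of dimension at most `n - s` -/
theorem diag_dim {r n s : ℕ} (hs : 1 ≤ s) (hsn : s ≤ n) (m : ℕ) (hm : 1 ≤ m)
    (f : Fin s → Fin (n + 1) → MvPolynomial (Fin r × Fin 3) ℤ) (V : Fin r → Fin 3 → ℂ)
    (hV : LinearIndependent ℂ (fun (l : Fin s) (k : Fin (n + 1)) =>
      (aeval (fun ij : Fin r × Fin 3 => V ij.1 ij.2) (f l k) : ℂ))) :
    DimLE (n - s) (Fibre (fun l => diag m (f l)) V) := by
  classical
  intro J hJ
  set A : Fin s → Fin (n + 1) → ℂ := fun l k =>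
    aeval (fun ij : Fin r × Fin 3 => V ij.1 ij.2) (f l k) with hA
  -- a combination of the rows which vanishes outside `J`
  obtain ⟨lam, hlam0, hlam⟩ : ∃ lam : Fin s → ℂ, lam ≠ 0 ∧
      ∀ k ∉ J, ∑ l, lam l * A l k.succ = 0 := by
    set φ : (Fin s → ℂ) →ₗ[ℂ] ({k : Fin n // k ∉ J} → ℂ) :=
      LinearMap.pi fun k => ∑ l, (A l k.1.succ) • LinearMap.proj l with hφ
    have hφe : ∀ lam k, φ lam k = ∑ l, lam l * A l k.1.succ := by
      intro lam k
      simp [hφ, mul_comm]
    have hker : LinearMap.ker φ ≠ ⊥ := by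
      apply LinearMap.ker_ne_bot_of_finrank_lt
      rw [Module.finrank_fintype_fun_eq_card, Module.finrank_fintype_fun_eq_card,
        Fintype.card_fin, Fintype.card_subtype_compl, Fintype.card_fin]
      simp only [Fintype.card_coe]
      omega
    obtain ⟨lam, h1, h2⟩ := (Submodule.ne_bot_iff _).1 hker
    refine ⟨lam, h2, fun k hk => ?_⟩
    rw [← hφe lam ⟨k, hk⟩, LinearMap.mem_ker.1 h1]
    rfl
  set c : Fin (n + 1) → ℂ := fun k => ∑ l, lam l * A l k with hc
  have hc0 : c ≠ 0 := by
    intro h0
    apply hlam0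
    have h1 := Fintype.linearIndependent_iff.1 hV lam (by
      funext k
      have := congrFun h0 k
      simpa [hc, hA] using this)
    funext l
    exact h1 l
  have hm0 : m ≠ 0 := by omega
  clear_value c
  refine ⟨C (c 0) + ∑ k : J, C (c (k : Fin n).succ) * X k ^ m, ?_, ?_⟩
  · intro h0
    have hc00 : c 0 = 0 := by
      have h1 := congrArg (eval (fun _ : J => (0 : ℂ))) h0
      simpa [hm0] using h1
    apply hc0
    funext k
    refine Fin.cases ?_ (fun k => ?_) k
    · exact hc00
    · by_cases hk : k ∈ J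
      · -- evaluate
        have h1 := congrArg (eval (fun k' : J => if (k' : Fin n) = k then (1 : ℂ) else 0)) h0
        rw [map_zero, map_add, map_sum, eval_C, hc00, zero_add] at h1
        rw [Finset.sum_eq_single (⟨k, hk⟩ : J)] at h1
        · simpa using h1
        · intro k' _ hk'
          have h2 : (k' : Fin n) ≠ k := fun h => hk' (Subtype.ext h)
          simp [h2, hm0]
        · intro h
          exact absurd (Finset.mem_univ _) h
      · rw [hc]
        exact hlam k hk
  · intro t ht
    rw [map_add, map_sum, eval_C]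
    have h1 : ∑ k : J, eval (fun k : J => t k) (C (c (k : Fin n).succ) * X k ^ m) =
        ∑ k ∈ J, c k.succ * t k ^ m := by
      rw [← Finset.sum_coe_sort J (fun k => c k.succ * t k ^ m)]
      refine Finset.sum_congr rfl fun k _ => ?_
      simp
    have h2 : ∑ k ∈ J, c k.succ * t k ^ m = ∑ k : Fin n, c k.succ * t k ^ m := by
      refine Finset.sum_subset (Finset.subset_univ J) fun k _ hk => ?_
      rw [hc]
      simp only
      rw [hlam k hk, zero_mul]
    rw [h1, h2]
    have h3 : c 0 + ∑ k : Fin n, c k.succ * t k ^ m = ∑ l, lam l * val (diag m (f l)) V t := by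
      simp only [val_diag, hc, Finset.sum_mul, mul_add, Finset.mul_sum, Finset.sum_add_distrib]
      congr 1
      rw [Finset.sum_comm]
      refine Finset.sum_congr rfl fun l _ => Finset.sum_congr rfl fun k _ => ?_
      rw [hA]
      ring
    rw [h3]
    exact Finset.sum_eq_zero fun l _ => by rw [ht l, mul_zero]

end Pool.Agent.H148L
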