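import Pool.Agent.H148L.Abs
import Pool.Agent.W659.FD.Geo1

set_option autoImplicit false

/-! Rational points of closed subvarieties of `E_1 × … × E_r × 𝔸ⁿ`: local conditions, assembly. -/

namespace Pool.Agent.H148L

open MvPolynomial Pool.Agent.H901R3.MS WeierstrassCurve
open Pool.Agent.W659 Pool.Agent.W659.FD
open Pool.Agent.H925R3.DC (CLS PRM)

/-- the fibre over the point with homogeneous coordinates `V` of the closed subset
`F l (V; t) = 0`, `l = 1, …, s` -/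
def Fibre {K : Type} [Field K] {r n s : ℕ} (F : Fin s → Poly r n) (V : Fin r → Fin 3 → K) :
    Set (Fin n → K) := {t | ∀ l, val (F l) V t = 0}

/-- any `e + 1` coordinates satisfy a nontrivial polynomial equation on `Z ⊆ Kⁿ`, that is, the
dimension of (the Zariski closure of) `Z` is at most `e` -/
def DimLE {K : Type} [CommRing K] {n : ℕ} (e : ℕ) (Z : Set (Fin n → K)) : Prop :=
  ∀ J : Finset (Fin n), J.card = e + 1 → ∃ R : MvPolynomial J K, R ≠ 0 ∧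
    ∀ t ∈ Z, eval (fun k : J => t k) R = 0

/-- the same with equations of degree at most `D` -/
def DimLEdeg {K : Type} [CommRing K] {n : ℕ} (e D : ℕ) (Z : Set (Fin n → K)) : Prop :=
  ∀ J : Finset (Fin n), J.card = e + 1 → ∃ R : MvPolynomial J K, R ≠ 0 ∧ R.totalDegree ≤ D ∧
    ∀ t ∈ Z, eval (fun k : J => t k) R = 0

theorem local_zero {p : ℕ} [Fact p.Prime] (v : Place ℚ (ZMod p)) {r n : ℕ} (a b : Fin r → ℤ)
    (red : ∀ i, Pt (a i : ℚ) (b i : ℚ) → Pt (a i : ZMod p) (b i : ZMod p))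
    (hrep : ∀ i, ∀ P : Pt (a i : ℚ) (b i : ℚ), ∃ u : ℚ, u ≠ 0 ∧
      ∀ j, u * rep P j ∈ v.A ∧ v.r (u * rep P j) = rep (red i P) j)
    (F : Poly r n) (d : Fin r → ℕ) (hF : MultiHomog F d)
    (P : ∀ i, Pt (a i : ℚ) (b i : ℚ)) (t : Fin n → ℚ) (tb : Fin n → ZMod p)
    (ht : ∀ k, t k ∈ v.A) (htb : ∀ k, v.r (t k) = tb k)
    (hw : val F (fun i => rep (P i)) t = 0) :
    val F (fun i => rep (red i (P i))) tb = 0 := by
  choose u hu0 hu1 using fun i => hrep i (P i)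
  set V' : Fin r → Fin 3 → v.A := fun i j => ⟨u i * rep (P i) j, (hu1 i j).1⟩ with hV'
  set t' : Fin n → v.A := fun k => ⟨t k, ht k⟩ with ht'
  set x : v.A := valR F V' t' with hx
  have hxQ : (x : ℚ) = (∏ i, u i ^ d i) * val F (fun i => rep (P i)) t := by
    have h1 := valR_map v.A.subtype F V' t'
    have h2 : (v.A.subtype (valR F V' t')) = (x : ℚ) := rfl
    rw [← h2, h1, ← valR_eq, ← valR_scale F d hF]
    rfl
  rw [hw, mul_zero] at hxQ
  have hx0 : x = 0 := Subtype.ext hxQ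
  have h1 := valR_map v.ρ F V' t'
  rw [← hx, hx0, map_zero, valR_eq] at h1
  rw [h1]
  congr 1
  · funext i j
    have h3 := (hu1 i j).2
    rw [v.r_of (hu1 i j).1] at h3
    exact h3.symm
  · funext k
    rw [← htb k, v.r_of (ht k)]

/-- reduction of a quotient of integers -/
theorem r_quot {p : ℕ} [Fact p.Prime] (v : Place ℚ (ZMod p)) (u : ℤ) (w : ℕ) (hw : ¬ p ∣ w) :
    ((u : ℚ) / (w : ℚ)) ∈ v.A ∧ v.r ((u : ℚ) / (w : ℚ)) = (u : ZMod p) / (w : ZMod p) := by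
  have hw' : ((w : ℕ) : ZMod p) ≠ 0 := by
    rw [Ne, ZMod.natCast_eq_zero_iff]
    exact hw
  have hw0 : ((w : ℕ) : ℚ) ≠ 0 := by
    intro h
    have h1 : w = 0 := by exact_mod_cast h
    exact hw (by rw [h1]; exact dvd_zero p)
  have h1 : v.r (w : ℚ) ≠ 0 := by
    rw [v.r_nat]
    exact hw'
  have h2 : ((w : ℚ))⁻¹ ∈ v.A := v.inv_mem h1
  have h3 : v.r ((w : ℚ)⁻¹) = ((w : ℕ) : ZMod p)⁻¹ := by
    have h4 := v.r_mul h2 (v.nat_mem w)
    rw [inv_mul_cancel₀ hw0, v.r_nat] at h4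
    have h5 : v.r (1 : ℚ) = 1 := by
      have := v.r_nat 1
      simpa using this
    rw [h5] at h4
    exact eq_inv_of_mul_eq_one_left h4.symm
  rw [div_eq_mul_inv, div_eq_mul_inv]
  refine ⟨v.A.mul_mem (v.int_mem u) h2, ?_⟩
  rw [v.r_mul (v.int_mem u) h2, h3, v.r_int]

/-- a rational point lies over a point with standard coordinates -/
theorem std_point0 (hPTS : PTS) {r n s : ℕ} (a b : Fin r → ℤ)
    (hdisc : ∀ i, Disc (a i : ℚ) (b i : ℚ))
    (F : Fin s → Poly r n) (d : Fin s → Fin r → ℕ) (hF : ∀ l, MultiHomog (F l) (d l))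
    (t : Fin n → ℚ) (V : Fin r → Fin 3 → ℚ) (hV : ∀ i, FD.OnE (a i) (b i) (V i))
    (hw : ∀ l, val (F l) V t = 0) :
    ∃ P : ∀ i, Pt (a i : ℚ) (b i : ℚ), ∀ l, val (F l) (fun i => rep (P i)) t = 0 := by
  have h1 : ∀ i, ∃ (P : Pt (a i : ℚ) (b i : ℚ)) (u : ℚ), u ≠ 0 ∧ ∀ j, V i j = u * rep P j :=
    fun i => hPTS (a i) (b i) (V i) (hdisc i) (hV i)
  choose P u hu0 hu1 using h1
  refine ⟨P, fun l => ?_⟩
  have h2 : V = fun i j => u i * rep (P i) j := by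
    funext i j
    exact hu1 i j
  have h3 := hw l
  rw [h2, ← valR_eq, valR_scale (F l) (d l) (hF l), valR_eq] at h3
  rcases mul_eq_zero.1 h3 with h4 | h4
  · exfalso
    obtain ⟨i, -, hi⟩ := Finset.prod_eq_zero_iff.1 h4
    exact pow_ne_zero _ (hu0 i) hi
  · exact h4

/-- the reduction map exists and is a homomorphism -/
def RedP : Prop := ∀ (K k : Type) [Field K] [Field k] [DecidableEq K] [DecidableEq k]
  (v : Place K k) (a b : ℤ), Disc (a : k) (b : k) →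
    ∃ red : Pt (a : K) (b : K) →+ Pt (a : k) (b : k), IsRed v a b red

/-- homogeneous coordinates of the reduction -/
def RepP : Prop := ∀ (K k : Type) [Field K] [Field k] (v : Place K k) (a b : ℤ)
  (red : Pt (a : K) (b : K) → Pt (a : k) (b : k)), IsRed v a b red → ∀ P : Pt (a : K) (b : K),
    ∃ u : K, u ≠ 0 ∧ ∀ j, u * rep P j ∈ v.A ∧ v.r (u * rep P j) = rep (red P) j

theorem disc_of {K : Type} [Field K] {a b : ℤ} (h2 : (2 : K) ≠ 0)
    (h : ((4 * a ^ 3 + 27 * b ^ 2 : ℤ) : K) ≠ 0) : Disc (a : K) (b : K) := by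
  unfold Disc
  refine mul_ne_zero h2 ?_
  push_cast at h
  exact h

/-- the rational points `t` of height at most `H` over which there is a rational point -/
def Over {r n s : ℕ} (a b : Fin r → ℤ) (F : Fin s → Poly r n) (H : ℕ) : Set (Fin n → ℚ) :=
  {t | (∃ w : ℕ, 1 ≤ w ∧ w ≤ H ∧ ∀ k, ∃ u : ℤ, |u| ≤ (H : ℤ) ∧ t k = u / w) ∧
    ∃ V : Fin r → Fin 3 → ℚ, (∀ i, FD.OnE (a i) (b i) (V i)) ∧ t ∈ Fibre F V}

/-- the conclusion: few closed subsets of dimension at most `e` and of bounded degree -/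
def Few {n : ℕ} (e D : ℕ) (B : ℝ) (T : Set (Fin n → ℚ)) : Prop :=
  ∃ 𝒢 : Finset ((J : Finset (Fin n)) → MvPolynomial J ℤ), (𝒢.card : ℝ) ≤ B ∧
    (∀ g ∈ 𝒢, ∀ J : Finset (Fin n), J.card = e + 1 → g J ≠ 0 ∧ (g J).totalDegree ≤ D) ∧
    ∀ t ∈ T, ∃ g ∈ 𝒢, ∀ J : Finset (Fin n), J.card = e + 1 → aeval (fun k : J => t k) (g J) = 0

/-- the main theorem, hypotheses modulo `p` -/
def Main1 : Prop := ∀ (r n s : ℕ) (a b : Fin r → ℤ) (M D : ℕ), 0 < M → 0 < D →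
  (∀ i, 4 * a i ^ 3 + 27 * b i ^ 2 ≠ 0) →
  (∀ i, ∀ p : ℕ, p.Prime → ¬ p ∣ D → M ∣ p + 1 →
    Nat.card {z : ZMod p × ZMod p // z.2 ^ 2 = z.1 ^ 3 + a i * z.1 + b i} = p) →
  ∀ (F : Fin s → Poly r n) (d : Fin s → Fin r → ℕ), (∀ l, MultiHomog (F l) (d l)) →
  ∀ (e Dg : ℕ), (∀ (p : ℕ) [Fact p.Prime], ¬ p ∣ D → M ∣ p + 1 →
    ∀ V : Fin r → Fin 3 → ZMod p, (∀ i, FD.OnE (a i) (b i) (V i)) →
      DimLEdeg e Dg (Fibre F V)) →
  ∀ ε : ℝ, 0 < ε → ∃ C : ℝ, ∀ H : ℕ, 1 ≤ H →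
    Few e Dg (C * Real.exp (Real.log H ^ (1 / 2 + ε))) (Over a b F H)

theorem main1_aux (hCLS : CLS) (hPRM : PRM) (hRed : RedP) (hRep : RepP) (hPL : PL)
    (hPTS : PTS) (hM1 : M1) (hEXP : Pool.Agent.H925R3.DC.EXP) : Main1 := by
  classical
  intro r n s a b M D hM hD hdisc hss F d hF e Dg hns ε hε
  have hdQ : ∀ i, Disc (a i : ℚ) (b i : ℚ) := fun i =>
    disc_of (by norm_num) (by exact_mod_cast hdisc i)
  have hfg : ∀ i, Module.Finite ℤ (Pt (a i : ℚ) (b i : ℚ)) := fun i =>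
    Module.Finite.iff_addGroup_fg.2 (hM1 (a i) (b i) (hdQ i))
  haveI hFG : AddGroup.FG ((i : Fin r) → Pt (a i : ℚ) (b i : ℚ)) :=
    Module.Finite.iff_addGroup_fg.1 inferInstance
  set D' : ℕ := D * (∏ i, (4 * a i ^ 3 + 27 * b i ^ 2).natAbs) with hD'
  have hD'pos : 0 < D' := by
    refine Nat.mul_pos hD (Nat.pos_of_ne_zero ?_)
    rw [Finset.prod_ne_zero_iff]
    intro i _
    exact Int.natAbs_ne_zero.2 (hdisc i)
  have key : ∀ p : ℕ, p.Prime → 2 < p → ¬ p ∣ D' → M ∣ p + 1 →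
      ∃ Ωp : (∀ i, Pt (a i : ℚ) (b i : ℚ)) → Set (Fin n → ZMod p),
        (∀ P P' R : (∀ i, Pt (a i : ℚ) (b i : ℚ)), P = P' + (p + 1) • R → Ωp P = Ωp P') ∧
        (∀ P, DimLEdeg e Dg (Ωp P)) ∧
        (∀ (P : ∀ i, Pt (a i : ℚ) (b i : ℚ)) (u : Fin n → ℤ) (w : ℕ), ¬ p ∣ w →
          (∀ l, val (F l) (fun i => rep (P i)) (fun k => (u k : ℚ) / (w : ℚ)) = 0) →
            ∀ (_ : Fact p.Prime), (fun k => (u k : ZMod p) / (w : ZMod p)) ∈ Ωp P) := by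
    intro p hp h2 hpD hMp
    haveI : Fact p.Prime := ⟨hp⟩
    have hpD1 : ¬ p ∣ D := fun h => hpD (h.mul_right _)
    have hpd : ∀ i, ¬ (p : ℤ) ∣ 4 * a i ^ 3 + 27 * b i ^ 2 := by
      intro i h
      apply hpD
      apply Dvd.dvd.mul_left
      exact (Int.natCast_dvd.1 h).trans (Finset.dvd_prod_of_mem _ (Finset.mem_univ i))
    have h2p : (2 : ZMod p) ≠ 0 := by
      intro h
      have h3 : ((2 : ℕ) : ZMod p) = 0 := by exact_mod_cast h
      rw [ZMod.natCast_eq_zero_iff] at h3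
      have := Nat.le_of_dvd (by norm_num) h3
      omega
    obtain ⟨v⟩ := hPL p
    have hdp : ∀ i, Disc (a i : ZMod p) (b i : ZMod p) := fun i => disc_of h2p (by
      intro h
      exact hpd i ((ZMod.intCast_zmod_eq_zero_iff_dvd _ p).1 h))
    have h1 : ∀ i, ∃ red : Pt (a i : ℚ) (b i : ℚ) →+ Pt (a i : ZMod p) (b i : ZMod p),
        IsRed v (a i) (b i) red := fun i => hRed ℚ (ZMod p) v (a i) (b i) (hdp i)
    choose red hred using h1
    have hkill : ∀ i, ∀ P : Pt (a i : ZMod p) (b i : ZMod p), (p + 1) • P = 0 := by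
      intro i P
      have h5 : ((p : ℤ) + 1) • P = 0 := hEXP p (a i) (b i) h2 (hpd i) (hss i p hp hpD1 hMp) P
      rw [← natCast_zsmul]
      push_cast
      exact h5
    refine ⟨fun P => Fibre F (fun i => rep (red i (P i))), ?_, ?_, ?_⟩
    · intro P P' R hP
      have h5 : (fun i => rep (red i (P i))) = fun i => rep (red i (P' i)) := by
        funext i
        have hPi : P i = P' i + (p + 1) • R i := by rw [hP]; rfl
        rw [hPi, map_add, map_nsmul, hkill i, add_zero]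
      simp only
      rw [h5]
    · intro P
      exact hns p hpD1 hMp _ (fun i => onE_rep _)
    · intro P u w hpw hw _ l
      exact local_zero v a b (fun i => red i)
        (fun i P => hRep ℚ (ZMod p) v (a i) (b i) (red i) (hred i) P) (F l) (d l) (hF l) P _ _
        (fun k => (r_quot v (u k) w hpw).1) (fun k => (r_quot v (u k) w hpw).2) (hw l)
  choose Ω0 hΩ1 hΩ2 hΩ3 using key
  set Ω : (p : ℕ) → (∀ i, Pt (a i : ℚ) (b i : ℚ)) → Set (Fin n → ZMod p) := fun p P =>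
    {t | ∃ (h1 : p.Prime) (h2 : 2 < p) (h3 : ¬ p ∣ D') (h4 : M ∣ p + 1), t ∈ Ω0 p h1 h2 h3 h4 P}
    with hΩ
  have hΩeq : ∀ (p : ℕ) (h1 : p.Prime) (h2 : 2 < p) (h3 : ¬ p ∣ D') (h4 : M ∣ p + 1) P,
      Ω p P = Ω0 p h1 h2 h3 h4 P := by
    intro p h1 h2 h3 h4 P
    ext t
    constructor
    · rintro ⟨_, _, _, _, h⟩
      exact h
    · intro h
      exact ⟨h1, h2, h3, h4, h⟩
  obtain ⟨C, hC⟩ := abs_thm hCLS hPRM (∀ i, Pt (a i : ℚ) (b i : ℚ)) n M D' hM hD'pos Ω (e + 1) Dg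
    (by
      intro p h1 h2 h3 h4
      constructor
      · intro P P' R hP
        rw [hΩeq p h1 h2 h3 h4, hΩeq p h1 h2 h3 h4]
        exact hΩ1 p h1 h2 h3 h4 P P' R hP
      · intro P
        rw [hΩeq p h1 h2 h3 h4]
        haveI : Fact p.Prime := ⟨h1⟩
        exact hΩ2 p h1 h2 h3 h4 P) ε hε
  refine ⟨C, fun H hH => ?_⟩
  obtain ⟨𝒢, g1, g2, g3⟩ := hC H hH
  refine ⟨𝒢, g1, g2, ?_⟩
  rintro t ⟨⟨w, hw1, hw2, hu⟩, V, hV, hw⟩
  choose u hu1 hu2 using hu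
  obtain ⟨P, hP⟩ := std_point0 hPTS a b hdQ F d hF _ V hV hw
  have ht : t = fun k => (u k : ℚ) / (w : ℚ) := funext hu2
  obtain ⟨g, hg, h5⟩ := g3 u w hu1 hw1 hw2 ⟨P, fun p _ h2 h3 h4 hpw => by
    have h1 : p.Prime := Fact.out
    rw [hΩeq p h1 h2 h3 h4]
    refine hΩ3 p h1 h2 h3 h4 P u w hpw (fun l => ?_) ⟨h1⟩
    rw [← ht]
    exact hP l⟩
  refine ⟨g, hg, fun J hJ => ?_⟩
  rw [ht]
  exact h5 J hJ

end Pool.Agent.H148L
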