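import Mathlib

set_option autoImplicit false

/-! Integral vectors which satisfy no common linear equation: a non-zero determinant. -/

namespace Pool.Agent.H148L

open Finset

theorem span_top (κ : Type) [Fintype κ] [DecidableEq κ] (T : Set (κ → ℤ))
    (hT : ∀ g : κ → ℤ, (∀ v ∈ T, ∑ i, g i * v i = 0) → g = 0) :
    Submodule.span ℚ ((fun (v : κ → ℤ) (i : κ) => (v i : ℚ)) '' T) = ⊤ := by
  by_contra hne
  obtain ⟨f, hf0, hf⟩ := Submodule.exists_le_ker_of_lt_top _ (lt_top_iff_ne_top.2 hne)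
  obtain ⟨N, hN⟩ := IsLocalization.exist_integer_multiples_of_finite (nonZeroDivisors ℤ)
    (fun i : κ => f (Pi.single i 1))
  choose z hz using hN
  have hN0 : ((N : ℤ) : ℚ) ≠ 0 := by
    exact_mod_cast nonZeroDivisors.ne_zero N.2
  have hz' : ∀ i, (z i : ℚ) = (N : ℤ) * f (Pi.single i 1) := by
    intro i
    have := hz i
    simpa [zsmul_eq_mul] using this
  have hexp : ∀ v : κ → ℚ, f v = ∑ i, v i * f (Pi.single i 1) := by
    intro v
    conv_lhs => rw [pi_eq_sum_univ' v]
    rw [map_sum]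
    refine Finset.sum_congr rfl fun i _ => ?_
    rw [map_smul, smul_eq_mul]
  have h1 : z = 0 := by
    refine hT z fun v hv => ?_
    have h2 : f (fun i => (v i : ℚ)) = 0 := hf (Submodule.subset_span ⟨v, hv, rfl⟩)
    rw [hexp] at h2
    have h3 : ((∑ i, z i * v i : ℤ) : ℚ) = (N : ℤ) * ∑ i, (v i : ℚ) * f (Pi.single i 1) := by
      push_cast
      rw [Finset.mul_sum]
      refine Finset.sum_congr rfl fun i _ => ?_
      rw [hz' i]
      ring
    rw [h2, mul_zero] at h3
    exact_mod_cast h3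
  apply hf0
  refine LinearMap.ext fun v => ?_
  rw [hexp, LinearMap.zero_apply]
  refine Finset.sum_eq_zero fun i _ => ?_
  have h2 := hz' i
  rw [h1] at h2
  have h3 : f (Pi.single i 1) = 0 := by
    rcases mul_eq_zero.1 h2.symm with h | h
    · exact absurd h hN0
    · exact h
  rw [h3, mul_zero]

/-- integral vectors which satisfy no common linear equation: a non-zero determinant -/
theorem la (κ : Type) [Fintype κ] [DecidableEq κ] (T : Set (κ → ℤ))
    (hT : ∀ g : κ → ℤ, (∀ v ∈ T, ∑ i, g i * v i = 0) → g = 0) :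
    ∃ v : κ → κ → ℤ, (∀ i, v i ∈ T) ∧ (Matrix.of v).det ≠ 0 := by
  have hW := span_top κ T hT
  set s : Set (κ → ℚ) := (fun (v : κ → ℤ) (i : κ) => (v i : ℚ)) '' T with hs
  obtain ⟨b, hbs, hbspan, hbli⟩ := exists_linearIndependent ℚ s
  rw [hW] at hbspan
  let Bs : Module.Basis b ℚ (κ → ℚ) := Module.Basis.mk hbli (by
    rw [Subtype.range_coe]
    exact hbspan.ge)
  let e : κ ≃ b := Module.Basis.indexEquiv (Pi.basisFun ℚ κ) Bs
  have hrow : ∀ i : κ, ∃ v ∈ T, (fun j => (v j : ℚ)) = (e i : κ → ℚ) := by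
    intro i
    obtain ⟨v, hv, h⟩ := hbs (e i).2
    exact ⟨v, hv, h⟩
  choose v hvT hv using hrow
  refine ⟨v, hvT, ?_⟩
  set A : Matrix κ κ ℤ := Matrix.of v with hA
  have hli : LinearIndependent ℚ (fun i => (A.map (Int.castRingHom ℚ)) i) := by
    have h1 : (fun i => (A.map (Int.castRingHom ℚ)) i) = (fun x : b => (x : κ → ℚ)) ∘ e := by
      funext i
      exact hv i
    rw [h1]
    exact hbli.comp e e.injective
  intro h0
  have h1 : IsUnit (A.map (Int.castRingHom ℚ)) := Matrix.linearIndependent_rows_iff_isUnit.1 hli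
  rw [Matrix.isUnit_iff_isUnit_det, ← RingHom.mapMatrix_apply, ← RingHom.map_det, h0,
    map_zero] at h1
  exact not_isUnit_zero h1

/-- the size of the determinant -/
theorem det_bound (κ : Type) [Fintype κ] [DecidableEq κ] (v : κ → κ → ℤ) (B : ℕ)
    (hB : ∀ i j, |v i j| ≤ (B : ℤ)) :
    |(Matrix.of v).det| ≤ (Fintype.card κ).factorial * (B : ℤ) ^ Fintype.card κ := by
  have := Matrix.det_le (A := Matrix.of v) (abv := AbsoluteValue.abs) (x := (B : ℤ))
    (fun i j => hB i j)
  rw [nsmul_eq_mul] at this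
  exact this

/-- a common linear equation modulo `p` -/
theorem det_dvd (κ : Type) [Fintype κ] [DecidableEq κ] (v : κ → κ → ℤ) (p : ℕ) (hp : p.Prime)
    (c : κ → ZMod p) (hc : c ≠ 0) (h : ∀ i, ∑ j, c j * (v i j : ZMod p) = 0) :
    (p : ℤ) ∣ (Matrix.of v).det := by
  have : Fact p.Prime := ⟨hp⟩
  have h1 : ((Matrix.of v).map (Int.castRingHom (ZMod p))).det = 0 := by
    refine Matrix.exists_mulVec_eq_zero_iff.1 ⟨c, hc, ?_⟩
    funext i
    have h2 := h i
    simp only [Matrix.mulVec, dotProduct, Matrix.map_apply, Pi.zero_apply]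
    rw [← h2]
    refine Finset.sum_congr rfl fun j _ => ?_
    rw [mul_comm]
    rfl
  rw [← RingHom.mapMatrix_apply, ← RingHom.map_det] at h1
  exact (ZMod.intCast_zmod_eq_zero_iff_dvd _ p).1 h1

end Pool.Agent.H148L
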