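import Pool.Agent.H148L.U
import Pool.Agent.H148L.Count
import Pool.Agent.H925R3.DC.Final
import Pool.Agent.H901R3.MS.P_R1
import Pool.Agent.H901R3.MS.P_R2
import Pool.Agent.H901R3.MS.P_R3
import Pool.Agent.H901R3.MS.P_R4
import Pool.Agent.H901R3.MS.P_R5
import Pool.Agent.H901R3.MS.P_R6
import Pool.Agent.H901R3.MS.P_R7
import Pool.Agent.H901R3.MS.P_PL
import Pool.Agent.H901R3.MS.P_PTS
import Pool.Agent.H901R3.MS.P_M1
import Pool.Agent.H477R5.DC_EXP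
import Pool.Agent.H35R6.DC_CNT

set_option autoImplicit false

/-! Everything put together. -/

namespace Pool.Agent.H148L

open MvPolynomial Pool.Agent.H901R3.MS
open Pool.Agent.W659 Pool.Agent.W659.FD

theorem main1 : Main1 :=
  main1_aux Pool.Agent.H133R3.DC.cls Pool.Agent.H925R3.DC.prm'
    (t_R6 t_R1 t_R2 t_R3 t_R4 t_R5) (t_R7 t_R1) t_PL t_PTS t_M1 Pool.Agent.H477R5.DC.exp

/-- from few closed subsets to a count -/
theorem count_of_few {n : ℕ} (e D : ℕ) : ∃ C : ℝ, 0 ≤ C ∧ ∀ (B : ℝ) (T : Set (Fin n → ℚ)),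
    Few e D B T → ∀ S : Finset ℚ, S.Nonempty →
      (({t | t ∈ T ∧ ∀ k, t k ∈ S} : Set (Fin n → ℚ)).ncard : ℝ) ≤ C * B * (S.card : ℝ) ^ e := by
  classical
  obtain ⟨C, hC⟩ := count n e D
  refine ⟨C, by positivity, fun B T hfew S hS => ?_⟩
  obtain ⟨𝒢, h1, h2, h3⟩ := hfew
  set gQ : ((J : Finset (Fin n)) → MvPolynomial J ℤ) → ((J : Finset (Fin n)) → MvPolynomial J ℚ) :=
    fun g J => MvPolynomial.map (Int.castRingHom ℚ) (g J) with hgQ
  have hgood : ∀ g ∈ 𝒢, ∀ J : Finset (Fin n), J.card = e + 1 →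
      gQ g J ≠ 0 ∧ (gQ g J).totalDegree ≤ D := by
    intro g hg J hJ
    obtain ⟨h4, h5⟩ := h2 g hg J hJ
    constructor
    · intro h0
      apply h4
      apply MvPolynomial.map_injective (Int.castRingHom ℚ) (RingHom.injective_int _)
      rw [map_zero]
      exact h0
    · refine le_trans (Finset.sup_mono ?_) h5
      exact MvPolynomial.support_map_subset _ _
  have hsub : ({t | t ∈ T ∧ ∀ k, t k ∈ S} : Set (Fin n → ℚ)) ⊆
      ((𝒢.biUnion fun g => Zf (e + 1) S (gQ g) : Finset (Fin n → ℚ)) : Set (Fin n → ℚ)) := by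
    rintro t ⟨ht, htS⟩
    obtain ⟨g, hg, h4⟩ := h3 t ht
    rw [Finset.mem_coe, Finset.mem_biUnion]
    refine ⟨g, hg, Finset.mem_filter.2 ⟨Fintype.mem_piFinset.2 htS, fun J hJ => ?_⟩⟩
    rw [← h4 J hJ, hgQ]
    simp only
    rw [eval_map]
    rfl
  have h4 := Set.ncard_le_ncard hsub (Finset.finite_toSet _)
  rw [Set.ncard_coe_finset] at h4
  have h5 : (𝒢.biUnion fun g => Zf (e + 1) S (gQ g)).card ≤ 𝒢.card * (C * S.card ^ e) := by
    refine Finset.card_biUnion_le.trans ?_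
    refine (Finset.sum_le_card_nsmul _ _ _ fun g hg =>
      hC (gQ g) (hgood g hg) S (Finset.card_pos.2 hS)).trans ?_
    rw [smul_eq_mul]
  have h6 : (({t | t ∈ T ∧ ∀ k, t k ∈ S} : Set (Fin n → ℚ)).ncard : ℝ) ≤
      (𝒢.card : ℝ) * (C * (S.card : ℝ) ^ e) := by
    exact_mod_cast h4.trans h5
  calc _ ≤ (𝒢.card : ℝ) * (C * (S.card : ℝ) ^ e) := h6
    _ ≤ B * (C * (S.card : ℝ) ^ e) := mul_le_mul_of_nonneg_right h1 (by positivity)
    _ = _ := by ring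

/-- elliptic curves `y² = x³ + aᵢ x + bᵢ` which have exactly `p` affine points modulo all primes
`p ≡ -1 mod M` not dividing `D`, for some `M` and `D` (for instance curves with complex
multiplication) -/
def CMType {r : ℕ} (a b : Fin r → ℤ) : Prop :=
  (∀ i, 4 * a i ^ 3 + 27 * b i ^ 2 ≠ 0) ∧ ∃ M D : ℕ, 0 < M ∧ 0 < D ∧
    ∀ i, ∀ p : ℕ, p.Prime → ¬ p ∣ D → M ∣ p + 1 →
      Nat.card {z : ZMod p × ZMod p // z.2 ^ 2 = z.1 ^ 3 + a i * z.1 + b i} = p

theorem cmType_of {r : ℕ} (a b : Fin r → ℤ) (hab : ∀ i, a i * b i = 0 ∧ (a i ≠ 0 ∨ b i ≠ 0)) :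
    CMType a b := by
  refine ⟨fun i h => ?_, 12, 1, by norm_num, one_pos, fun i p hp _ hM =>
    Pool.Agent.H35R6.DCCNT.cnt p (a i) (b i) hp hM (hab i).1⟩
  obtain ⟨h1, h2⟩ := hab i
  rcases mul_eq_zero.1 h1 with h3 | h3
  · rw [h3] at h h2
    have h4 : (b i) ^ 2 = 0 := by linarith
    rcases h2 with h2 | h2
    · exact h2 rfl
    · exact h2 (pow_eq_zero_iff two_ne_zero |>.1 h4)
  · rw [h3] at h h2
    have h4 : (a i) ^ 3 = 0 := by linarith
    rcases h2 with h2 | h2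
    · exact h2 (pow_eq_zero_iff three_ne_zero |>.1 h4)
    · exact h2 rfl

/-- from grids to all the points -/
theorem total_of_grid {n : ℕ} (e : ℕ) (B : ℝ) (hB : 0 ≤ B) (H : ℕ) (hH : 1 ≤ H)
    (T : Set (Fin n → ℚ))
    (hT : ∀ t ∈ T, ∃ w : ℕ, 1 ≤ w ∧ w ≤ H ∧ ∀ k, ∃ u : ℤ, |u| ≤ (H : ℤ) ∧ t k = u / w)
    (h : ∀ S : Finset ℚ, S.Nonempty →
      (({t | t ∈ T ∧ ∀ k, t k ∈ S} : Set (Fin n → ℚ)).ncard : ℝ) ≤ B * (S.card : ℝ) ^ e) :
    (T.ncard : ℝ) ≤ B * (3 ^ e * (H : ℝ) ^ (e + 1)) := by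
  classical
  set S : ℕ → Finset ℚ := fun w => (Finset.Icc (-(H : ℤ)) H).image (fun u : ℤ => (u : ℚ) / (w : ℚ))
    with hS
  have hSne : ∀ w, (S w).Nonempty := by
    intro w
    refine Finset.Nonempty.image ⟨0, ?_⟩ _
    rw [Finset.mem_Icc]
    omega
  have hScard : ∀ w, (S w).card ≤ 2 * H + 1 := by
    intro w
    refine Finset.card_image_le.trans ?_
    rw [Int.card_Icc]
    omega
  set A : ℕ → Finset (Fin n → ℚ) := fun w => (grid n (S w)).filter (fun t => t ∈ T) with hA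
  have hAcard : ∀ w, ((A w).card : ℝ) ≤ B * (3 * (H : ℝ)) ^ e := by
    intro w
    have h1 : ((A w : Finset (Fin n → ℚ)) : Set (Fin n → ℚ)) = {t | t ∈ T ∧ ∀ k, t k ∈ S w} := by
      ext t
      rw [hA, Finset.mem_coe, Finset.mem_filter, grid, Fintype.mem_piFinset]
      exact and_comm
    have h2 := h (S w) (hSne w)
    rw [← h1, Set.ncard_coe_finset] at h2
    refine h2.trans (mul_le_mul_of_nonneg_left ?_ hB)
    refine pow_le_pow_left₀ (Nat.cast_nonneg _) ?_ e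
    have h3 : ((S w).card : ℝ) ≤ ((2 * H + 1 : ℕ) : ℝ) := by exact_mod_cast hScard w
    have h4 : (1 : ℝ) ≤ H := by exact_mod_cast hH
    push_cast at h3
    linarith
  have hsub : T ⊆ (((Finset.Icc 1 H).biUnion A : Finset (Fin n → ℚ)) : Set (Fin n → ℚ)) := by
    intro t ht
    obtain ⟨w, hw1, hw2, hw3⟩ := hT t ht
    rw [Finset.mem_coe, Finset.mem_biUnion]
    refine ⟨w, Finset.mem_Icc.2 ⟨hw1, hw2⟩, Finset.mem_filter.2 ⟨Fintype.mem_piFinset.2 ?_, ht⟩⟩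
    intro k
    obtain ⟨u, hu1, hu2⟩ := hw3 k
    rw [hu2]
    refine Finset.mem_image_of_mem _ ?_
    rw [Finset.mem_Icc, ← abs_le]
    exact hu1
  have h1 := Set.ncard_le_ncard hsub (Finset.finite_toSet _)
  rw [Set.ncard_coe_finset] at h1
  have h2 : (((Finset.Icc 1 H).biUnion A).card : ℝ) ≤ ∑ w ∈ Finset.Icc 1 H, ((A w).card : ℝ) := by
    exact_mod_cast Finset.card_biUnion_le
  calc (T.ncard : ℝ) ≤ (((Finset.Icc 1 H).biUnion A).card : ℝ) := by exact_mod_cast h1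
    _ ≤ ∑ w ∈ Finset.Icc 1 H, ((A w).card : ℝ) := h2
    _ ≤ ∑ w ∈ Finset.Icc 1 H, B * (3 * (H : ℝ)) ^ e := Finset.sum_le_sum fun w _ => hAcard w
    _ = B * (3 ^ e * (H : ℝ) ^ (e + 1)) := by
        rw [Finset.sum_const, Nat.card_Icc, nsmul_eq_mul, mul_pow]
        simp only [Nat.add_sub_cancel]
        ring

/-- the main theorem, geometric hypothesis over `ℂ` -/
theorem main2 (r n s : ℕ) (a b : Fin r → ℤ) (hab : CMType a b)
    (F : Fin s → Poly r n) (d : Fin s → Fin r → ℕ) (hF : ∀ l, MultiHomog (F l) (d l)) (e : ℕ)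
    (hdim : ∀ V : Fin r → Fin 3 → ℂ, (∀ i, FD.OnE (a i) (b i) (V i)) → DimLE e (Fibre F V)) :
    ∃ D : ℕ, ∀ ε : ℝ, 0 < ε → ∃ C : ℝ, ∀ H : ℕ, 1 ≤ H →
      Few e D (C * Real.exp (Real.log H ^ (1 / 2 + ε))) (Over a b F H) ∧
      (∀ S : Finset ℚ, S.Nonempty →
        (({t | t ∈ Over a b F H ∧ ∀ k, t k ∈ S} : Set (Fin n → ℚ)).ncard : ℝ) ≤
          C * (S.card : ℝ) ^ e * Real.exp (Real.log H ^ (1 / 2 + ε))) ∧
      ((Over a b F H).ncard : ℝ) ≤
        C * (H : ℝ) ^ (e + 1) * Real.exp (Real.log H ^ (1 / 2 + ε)) := by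
  obtain ⟨D, hD⟩ := transfer a b F e hdim
  obtain ⟨hdisc, M, D₁, hM, hD₁, hss⟩ := hab
  refine ⟨D, fun ε hε => ?_⟩
  obtain ⟨C, hC⟩ := main1 r n s a b M (D₁ * D.factorial) hM
    (Nat.mul_pos hD₁ (Nat.factorial_pos _)) hdisc
    (fun i p hp hpD hMp => hss i p hp (fun h => hpD (h.mul_right _)) hMp)
    F d hF e D (by
      intro p hpf hpD _ V hV
      refine hD p ?_ V hV
      by_contra hlt
      push Not at hlt
      exact hpD ((Nat.dvd_factorial hpf.out.pos hlt.le).mul_left _)) ε hε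
  obtain ⟨C', hC'0, hC'⟩ := count_of_few (n := n) e D
  set K : ℝ := max (max C (C' * C) * 3 ^ e) (max C (C' * C)) with hK
  have hK1 : C ≤ K := (le_max_left _ _).trans (le_max_right _ _)
  have hK2 : C' * C ≤ K := (le_max_right _ _).trans (le_max_right _ _)
  refine ⟨K, fun H hH => ?_⟩
  have hfew := hC H hH
  have hC0 : 0 ≤ C * Real.exp (Real.log H ^ (1 / 2 + ε)) := by
    obtain ⟨𝒢, h1, -, -⟩ := hfew
    exact (Nat.cast_nonneg _).trans h1
  have hC1 : 0 ≤ C := nonneg_of_mul_nonneg_left hC0 (Real.exp_pos _)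
  have hgrid : ∀ S : Finset ℚ, S.Nonempty →
      (({t | t ∈ Over a b F H ∧ ∀ k, t k ∈ S} : Set (Fin n → ℚ)).ncard : ℝ) ≤
        ((C' * C) * Real.exp (Real.log H ^ (1 / 2 + ε))) * (S.card : ℝ) ^ e := by
    intro S hS
    refine (hC' _ _ hfew S hS).trans (le_of_eq ?_)
    ring
  refine ⟨?_, ?_, ?_⟩
  · obtain ⟨𝒢, h1, h2, h3⟩ := hfew
    refine ⟨𝒢, h1.trans ?_, h2, h3⟩
    exact mul_le_mul_of_nonneg_right hK1 (Real.exp_pos _).le
  · intro S hS
    refine (hgrid S hS).trans ?_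
    have h1 : (C' * C) * Real.exp (Real.log H ^ (1 / 2 + ε)) * (S.card : ℝ) ^ e =
        (C' * C) * ((S.card : ℝ) ^ e * Real.exp (Real.log H ^ (1 / 2 + ε))) := by ring
    rw [h1, mul_assoc K]
    exact mul_le_mul_of_nonneg_right hK2 (by positivity)
  · refine (total_of_grid e _ (by positivity) H hH (Over a b F H) (fun t ht => ht.1)
      hgrid).trans ?_
    have h1 : (C' * C) * Real.exp (Real.log H ^ (1 / 2 + ε)) * (3 ^ e * (H : ℝ) ^ (e + 1)) =
        (C' * C * 3 ^ e) * ((H : ℝ) ^ (e + 1) * Real.exp (Real.log H ^ (1 / 2 + ε))) := by ring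
    rw [h1, mul_assoc K]
    have h2 : C' * C * 3 ^ e ≤ K := by
      refine le_trans ?_ (le_max_left _ _)
      exact mul_le_mul_of_nonneg_right (le_max_right _ _) (by positivity)
    exact mul_le_mul_of_nonneg_right h2 (by positivity)

end Pool.Agent.H148L
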