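import Pool.Agent.H148L.Geo

set_option autoImplicit false

/-! Fibres of dimension at most `e` over `ℂ`: uniform equations modulo all large primes. -/

namespace Pool.Agent.H148L

open MvPolynomial Cardinal Filter
open Pool.Agent.W659 Pool.Agent.W659.FD

/-- a field of characteristic zero with at most continuum many elements embeds into `ℂ` -/
theorem embed_le (L : Type) [Field L] [CharZero L] (hL : #L ≤ 𝔠) :
    Nonempty (L →+* ℂ) := by
  classical
  let A : Type := MvPolynomial ℝ L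
  let M : Type := AlgebraicClosure (FractionRing A)
  have hA : #A ≤ 𝔠 := by
    refine MvPolynomial.cardinalMk_le_max.trans ?_
    refine max_le (max_le hL ?_) aleph0_le_continuum
    rw [mk_real]
  have hA' : 𝔠 ≤ #A := by
    rw [← mk_real]
    exact mk_le_of_injective (MvPolynomial.X_injective (R := L) (σ := ℝ))
  have hF : #(FractionRing A) = 𝔠 := by
    rw [Cardinal.mk_fractionRing]
    exact le_antisymm hA hA'
  have hM : #M = 𝔠 := by
    refine le_antisymm ((Algebra.IsAlgebraic.cardinalMk_le_max (FractionRing A) M).trans ?_) ?_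
    · rw [hF]
      exact max_le le_rfl aleph0_le_continuum
    · rw [← hF]
      exact mk_le_of_injective (algebraMap (FractionRing A) M).injective
  have hC : #ℂ = 𝔠 := mk_complex
  haveI : CharZero A := by infer_instance
  haveI : CharZero (FractionRing A) := by infer_instance
  haveI : CharZero M := charZero_of_injective_algebraMap (algebraMap (FractionRing A) M).injective
  have he : Nonempty (M ≃ ℂ) := Cardinal.eq.1 (hM.trans hC.symm)
  obtain ⟨e⟩ := IsAlgClosed.ringEquiv_of_equiv_of_charZero (K := M) (L := ℂ)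
    (by rw [hM]; exact aleph0_lt_continuum) he
  exact ⟨e.toRingHom.comp ((algebraMap (FractionRing A) M).comp
    ((algebraMap A (FractionRing A)).comp MvPolynomial.C))⟩

section ultra

variable (p : ℕ → ℕ) [hp : ∀ m, Fact (p m).Prime]

/-- the sequences which vanish almost everywhere -/
def uI : Ideal (∀ m, ZMod (p m)) where
  carrier := {f | ∀ᶠ m in (hyperfilter ℕ : Filter ℕ), f m = 0}
  zero_mem' := Filter.Eventually.of_forall fun _ => rfl
  add_mem' {f g} hf hg := by
    filter_upwards [hf, hg] with m h1 h2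
    rw [Pi.add_apply, h1, h2, add_zero]
  smul_mem' c f hf := by
    filter_upwards [hf] with m h1
    rw [smul_eq_mul, Pi.mul_apply, h1, mul_zero]

theorem mem_uI (f : ∀ m, ZMod (p m)) :
    f ∈ uI p ↔ ∀ᶠ m in (hyperfilter ℕ : Filter ℕ), f m = 0 := Iff.rfl

theorem notMem_uI (f : ∀ m, ZMod (p m)) :
    f ∉ uI p ↔ ∀ᶠ m in (hyperfilter ℕ : Filter ℕ), f m ≠ 0 := by
  rw [mem_uI]
  exact Ultrafilter.eventually_not.symm

include hp in
theorem uI_max : (uI p).IsMaximal := by
  rw [Ideal.isMaximal_iff]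
  constructor
  · rw [notMem_uI]
    exact Filter.Eventually.of_forall fun m => one_ne_zero
  · intro J x hIJ hx hxJ
    rw [notMem_uI] at hx
    have h1 : 1 - x * (fun m => (x m)⁻¹) ∈ uI p := by
      rw [mem_uI]
      filter_upwards [hx] with m hm
      rw [Pi.sub_apply, Pi.mul_apply, Pi.one_apply, mul_inv_cancel₀ hm, sub_self]
    have h2 := J.add_mem (hIJ h1) (J.mul_mem_right (fun m => (x m)⁻¹) hxJ)
    rwa [sub_add_cancel] at h2

theorem card_le : #((∀ m, ZMod (p m)) ⧸ uI p) ≤ 𝔠 := by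
  refine (Cardinal.mk_le_of_surjective (Ideal.Quotient.mk_surjective (I := uI p))).trans ?_
  have h1 : #(∀ m, ZMod (p m)) ≤ #(ℕ → ℕ) := by
    refine Cardinal.mk_le_of_injective (f := fun f m => (f m).val) ?_
    intro f g h
    funext m
    haveI : NeZero (p m) := ⟨(hp m).out.ne_zero⟩
    exact ZMod.val_injective (p m) (congrFun h m)
  refine h1.trans ?_
  simp

theorem char_zero (hle : ∀ m, m ≤ p m) : CharZero ((∀ m, ZMod (p m)) ⧸ uI p) := by
  refine charZero_of_inj_zero fun n hn => ?_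
  by_contra hn0
  have h1 : ((n : ∀ m, ZMod (p m))) ∈ uI p := by
    rw [← Ideal.Quotient.eq_zero_iff_mem, map_natCast]
    exact hn
  rw [mem_uI] at h1
  have h2 : ∀ᶠ m in (hyperfilter ℕ : Filter ℕ), n < m :=
    (Nat.hyperfilter_le_atTop) (eventually_gt_atTop n)
  obtain ⟨m, h3, h4⟩ := (h1.and h2).exists
  rw [Pi.natCast_apply, ZMod.natCast_eq_zero_iff] at h3
  have h5 := Nat.le_of_dvd (Nat.pos_of_ne_zero hn0) h3
  have := hle m
  omega

end ultra

theorem map_eval' {A B σ : Type} [CommRing A] [CommRing B] (f : A →+* B) (x : σ → A)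
    (q : MvPolynomial σ A) : f (eval x q) = eval (fun i => f (x i)) (map f q) := by
  induction q using MvPolynomial.induction_on with
  | C a => simp
  | add q1 q2 h1 h2 => rw [map_add, map_add, map_add, map_add, h1, h2]
  | mul_X q i h => simp [h]

/-- uniform equations modulo all large primes, for one set of coordinates -/
theorem transferJ {r n s : ℕ} (a b : Fin r → ℤ) (F : Fin s → Poly r n) (J : Finset (Fin n))
    (hyp : ∀ V : Fin r → Fin 3 → ℂ, (∀ i, FD.OnE (a i) (b i) (V i)) →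
      ∃ R : MvPolynomial J ℂ, R ≠ 0 ∧ ∀ t ∈ Fibre F V, eval (fun k : J => t k) R = 0) :
    ∃ D : ℕ, ∀ (p : ℕ) [Fact p.Prime], D ≤ p → ∀ V : Fin r → Fin 3 → ZMod p,
      (∀ i, FD.OnE (a i) (b i) (V i)) → ∃ R : MvPolynomial J (ZMod p), R ≠ 0 ∧
        R.totalDegree ≤ D ∧ ∀ t ∈ Fibre F V, eval (fun k : J => t k) R = 0 := by
  classical
  by_contra hcon
  push Not at hcon
  choose p hp hle V hV hR using hcon
  haveI : ∀ m, Fact (p m).Prime := hp
  haveI := uI_max p
  letI : Field ((∀ m, ZMod (p m)) ⧸ uI p) := Ideal.Quotient.field (uI p)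
  haveI := char_zero p hle
  obtain ⟨φ⟩ := embed_le ((∀ m, ZMod (p m)) ⧸ uI p) (card_le p)
  set π : (∀ m, ZMod (p m)) →+* ((∀ m, ZMod (p m)) ⧸ uI p) := Ideal.Quotient.mk (uI p) with hπ
  have hφ0 : ∀ x : (∀ m, ZMod (p m)), φ (π x) = 0 → x ∈ uI p := by
    intro x hx
    rw [← Ideal.Quotient.eq_zero_iff_mem]
    exact (map_eq_zero φ).1 hx
  set W : Fin r → Fin 3 → (∀ m, ZMod (p m)) := fun i j m => V m i j with hW
  have hVC : ∀ i, FD.OnE (a i) (b i) (fun j => φ (π (W i j))) := by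
    intro i
    constructor
    · intro h0
      have h1 : ∀ j, ∀ᶠ m in (hyperfilter ℕ : Filter ℕ), V m i j = 0 := fun j =>
        (mem_uI p _).1 (hφ0 _ (congrFun h0 j))
      obtain ⟨m, hm⟩ := (Filter.eventually_all.2 h1).exists
      exact (hV m i).1 (funext hm)
    · have h1 : W i 1 ^ 2 * W i 2 = W i 0 ^ 3 + (a i : ∀ m, ZMod (p m)) * W i 0 * W i 2 ^ 2 +
          (b i : ∀ m, ZMod (p m)) * W i 2 ^ 3 := by
        funext m
        exact (hV m i).2
      have h2 := congrArg (fun x => φ (π x)) h1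
      simpa using h2
  obtain ⟨RC, hRC0, hRC⟩ := hyp (fun i j => φ (π (W i j))) hVC
  obtain ⟨μ₀, hμ₀⟩ := exists_coeff_ne_zero hRC0
  letI : Algebra ((∀ m, ZMod (p m)) ⧸ uI p) ℂ := φ.toAlgebra
  obtain ⟨lam, hlam⟩ : ∃ lam : Module.Dual ((∀ m, ZMod (p m)) ⧸ uI p) ℂ, lam (RC.coeff μ₀) ≠ 0 := by
    by_contra hno
    push Not at hno
    exact hμ₀ ((Module.forall_dual_apply_eq_zero_iff ((∀ m, ZMod (p m)) ⧸ uI p) _).1 hno)
  have hlift : ∀ μ : J →₀ ℕ, ∃ x : (∀ m, ZMod (p m)), π x = lam (RC.coeff μ) := fun μ =>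
    Ideal.Quotient.mk_surjective _
  choose c hc using hlift
  set Rt : MvPolynomial J (∀ m, ZMod (p m)) := ∑ μ ∈ RC.support, monomial μ (c μ) with hRt
  set Rm : ∀ m, MvPolynomial J (ZMod (p m)) := fun m =>
    map (Pi.evalRingHom (fun m => ZMod (p m)) m) Rt with hRm
  have hRmc : ∀ m, Rm m = ∑ μ ∈ RC.support, monomial μ (c μ m) := by
    intro m
    rw [hRm, hRt]
    simp only [map_sum, map_monomial]
    rfl
  have hdeg : ∀ m, (Rm m).totalDegree ≤ RC.totalDegree := by
    intro m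
    rw [hRmc]
    refine (totalDegree_finsetSum _ _).trans (Finset.sup_le fun μ hμ => ?_)
    refine (totalDegree_monomial_le _ _).trans ?_
    exact le_totalDegree hμ
  have hcoef : ∀ m, (Rm m).coeff μ₀ = c μ₀ m := by
    intro m
    rw [hRmc, coeff_sum, Finset.sum_eq_single μ₀]
    · rw [coeff_monomial, if_pos rfl]
    · intro μ _ hμ
      rw [coeff_monomial, if_neg hμ]
    · intro h
      exact absurd (mem_support_iff.2 hμ₀) h
  have hpt : ∀ m, ∃ t : Fin n → ZMod (p m), Rm m ≠ 0 → (Rm m).totalDegree ≤ m →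
      t ∈ Fibre F (V m) ∧ eval (fun k : J => t k) (Rm m) ≠ 0 := by
    intro m
    by_cases h : Rm m ≠ 0 ∧ (Rm m).totalDegree ≤ m
    · obtain ⟨t, h1, h2⟩ := hR m (Rm m) h.1 h.2
      exact ⟨t, fun _ _ => ⟨h1, h2⟩⟩
    · exact ⟨0, fun h1 h2 => absurd ⟨h1, h2⟩ h⟩
  choose t ht using hpt
  set T : Fin n → (∀ m, ZMod (p m)) := fun k m => t m k with hT
  have hev : ∀ᶠ m in (hyperfilter ℕ : Filter ℕ), t m ∈ Fibre F (V m) ∧
      eval (fun k : J => t m k) (Rm m) ≠ 0 := by
    have h1 : c μ₀ ∉ uI p := by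
      intro h
      rw [← Ideal.Quotient.eq_zero_iff_mem] at h
      exact hlam ((hc μ₀).symm.trans h)
    rw [notMem_uI] at h1
    have h2 : ∀ᶠ m in (hyperfilter ℕ : Filter ℕ), RC.totalDegree < m :=
      (Nat.hyperfilter_le_atTop) (eventually_gt_atTop _)
    filter_upwards [h1, h2] with m h3 h4
    refine ht m ?_ ((hdeg m).trans h4.le)
    intro h5
    apply h3
    rw [← hcoef m, h5, coeff_zero]
  -- the point of the fibre over the complex numbers
  have hmem : (fun k => φ (π (T k))) ∈ Fibre F (fun i j => φ (π (W i j))) := by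
    intro l
    have h1 := valR_map (φ.comp π) (F l) W T
    have h2 : valR (F l) W T ∈ uI p := by
      rw [mem_uI]
      filter_upwards [hev] with m hm
      have h3 := valR_map (Pi.evalRingHom (fun m => ZMod (p m)) m) (F l) W T
      have h4 : (valR (F l) W T) m = val (F l) (V m) (t m) := h3
      rw [h4]
      exact hm.1 l
    have h3 : (φ.comp π) (valR (F l) W T) = 0 := by
      change φ (π (valR (F l) W T)) = 0
      rw [hπ, Ideal.Quotient.eq_zero_iff_mem.2 h2, map_zero]
    rw [h3] at h1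
    exact h1.symm
  have h0 := hRC _ hmem
  -- apply the functional
  have h1 : π (eval (fun k : J => T k) Rt) = 0 := by
    have h2 := congrArg lam h0
    rw [map_zero, eval_eq', map_sum] at h2
    rw [map_eval', hRt, map_sum, map_sum, ← h2]
    refine Finset.sum_congr rfl fun μ _ => ?_
    rw [map_monomial, eval_monomial, hc]
    have h3 : RC.coeff μ * ∏ i : J, φ (π (T i)) ^ (μ i) =
        (∏ i : J, π (T i) ^ (μ i)) • RC.coeff μ := by
      rw [Algebra.smul_def, mul_comm, map_prod]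
      congr 1
      refine Finset.prod_congr rfl fun i _ => ?_
      rw [map_pow]
      rfl
    rw [h3, map_smul, smul_eq_mul, mul_comm]
    congr 1
    rw [Finsupp.prod_fintype _ _ (fun _ => pow_zero _)]
  have h2 : eval (fun k : J => T k) Rt ∈ uI p := Ideal.Quotient.eq_zero_iff_mem.1 h1
  rw [mem_uI] at h2
  obtain ⟨m, h3, h4⟩ := (h2.and hev).exists
  apply h4.2
  have h5 := map_eval' (Pi.evalRingHom (fun m => ZMod (p m)) m) (fun k : J => T k) Rt
  rw [← h3]
  exact h5.symm

/-- uniform equations modulo all large primes -/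
theorem transfer {r n s : ℕ} (a b : Fin r → ℤ) (F : Fin s → Poly r n) (e : ℕ)
    (hyp : ∀ V : Fin r → Fin 3 → ℂ, (∀ i, FD.OnE (a i) (b i) (V i)) → DimLE e (Fibre F V)) :
    ∃ D : ℕ, ∀ (p : ℕ) [Fact p.Prime], D ≤ p → ∀ V : Fin r → Fin 3 → ZMod p,
      (∀ i, FD.OnE (a i) (b i) (V i)) → DimLEdeg e D (Fibre F V) := by
  classical
  have h1 : ∀ J : Finset (Fin n), ∃ D : ℕ, J.card = e + 1 → ∀ (p : ℕ) [Fact p.Prime], D ≤ p →
      ∀ V : Fin r → Fin 3 → ZMod p,
      (∀ i, FD.OnE (a i) (b i) (V i)) → ∃ R : MvPolynomial J (ZMod p), R ≠ 0 ∧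
        R.totalDegree ≤ D ∧ ∀ t ∈ Fibre F V, eval (fun k : J => t k) R = 0 := by
    intro J
    by_cases hJ : J.card = e + 1
    · obtain ⟨D, hD⟩ := transferJ a b F J (fun V hV => hyp V hV J hJ)
      exact ⟨D, fun _ => hD⟩
    · exact ⟨0, fun h => absurd h hJ⟩
  choose D hD using h1
  refine ⟨∑ J, D J, fun p hp hle V hV J hJ => ?_⟩
  have h2 : D J ≤ ∑ J, D J := Finset.single_le_sum (fun _ _ => Nat.zero_le _) (Finset.mem_univ J)
  obtain ⟨R, h3, h4, h5⟩ := hD J hJ p (h2.trans hle) V hV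
  exact ⟨R, h3, h4.trans h2, h5⟩

end Pool.Agent.H148L
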